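import Mathlib
import Pool.Agent.Lib.MP_2432f5_co.Defs
import Pool.Agent.Lib.MP_2432f5_co.Force

/-! Extending pattern-free words to maximal pattern-free words: the answer is negative, even for
patterns without constants. -/

namespace Pool.Agent.Results.MP_2432f5_co.NoMaximalExtension

open Pool.Agent.Lib.MP_2432f5_co

theorem flatMap_inr (h : ℕ → List Ch) (l : List ℕ) :
    (l.map (Sum.inr : ℕ → Ch ⊕ ℕ)).flatMap (image h) = l.flatMap h := by
  rw [List.flatMap_map]
  rfl

theorem encounters_iff (w : List Ch) :
    Encounters (pat.map (Sum.inr : ℕ → Ch ⊕ ℕ)) w ↔ Enc w := by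
  unfold Encounters Enc
  simp only [flatMap_inr]

/-- There are a five-letter alphabet `A`, a nonempty pattern `p` all of whose letters are
variables, and a `p`-free word `w` such that every `p`-free word `v` having `w` as a factor can be
extended to a `p`-free word `c v d` with letters `c`, `d`. -/
theorem result : ∃ (A : Type) (_ : Fintype A) (p : List (A ⊕ ℕ)) (w : List A),
    Fintype.card A = 5 ∧ p ≠ [] ∧ (∀ c : A, Sum.inl c ∉ p) ∧ PatternFree p w ∧
      ∀ v : List A, w <:+: v → PatternFree p v →
        ∃ c d : A, PatternFree p (c :: (v ++ [d])) := by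
  refine ⟨Ch, inferInstance, pat.map Sum.inr, U 21 21, by decide, ?_, ?_, ?_, ?_⟩
  · intro h
    have h1 : pat = [] := List.map_eq_nil_iff.1 h
    simp [pat] at h1
  · intro c hc
    obtain ⟨x, _, hx⟩ := List.mem_map.1 hc
    cases hx
  · intro hc
    rw [encounters_iff] at hc
    obtain ⟨h, hne, hi⟩ := hc
    exact avoids (by norm_num) (by norm_num) hne hi
  · intro v hv hfree
    obtain ⟨E, z', rfl⟩ := hv
    have h1 : ¬ Enc (E ++ U 21 21 ++ z') := fun hc => hfree ((encounters_iff _).2 hc)
    have h2 := force h1
    refine ⟨R (21 + E.length), R (21 + z'.length), ?_⟩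
    intro hc
    rw [encounters_iff, h2, ← U_succ_right, ← U_succ_left] at hc
    obtain ⟨h, hne, hi⟩ := hc
    exact avoids (by omega) (by omega) hne hi

end Pool.Agent.Results.MP_2432f5_co.NoMaximalExtension
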